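import Mathlib
import Pool.Agent.TH854.KS.K6

/-! Local obstructions to the order of magnitude of the number of points on arithmetic
`k`-spheres. -/

open Finset

namespace Pool.Agent.Y371.KS

open Pool.Agent.TH854.KS

/-- Euler: `x ^ k = 1` modulo `p ^ (t + 1)` for `p ^ t (p - 1) ∣ k`. -/
lemma unit_pow {p t k : ℕ} (hp : p.Prime) (h : p ^ t * (p - 1) ∣ k) {x : ℕ} (hx : ¬ p ∣ x) :
    x ^ k ≡ 1 [MOD p ^ (t + 1)] := by
  obtain ⟨c, rfl⟩ := h
  have h1 : x.Coprime (p ^ (t + 1)) := by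
    apply Nat.Coprime.pow_right
    exact ((Nat.Prime.coprime_iff_not_dvd hp).mpr hx).symm
  have h2 := Nat.ModEq.pow_totient h1
  rw [Nat.totient_prime_pow_succ hp] at h2
  rw [pow_mul]
  simpa using h2.pow c

/-- odd numbers: `x ^ k = 1` modulo `2 ^ (t + 2)` for `2 ^ t ∣ k`, `t ≥ 1`. -/
lemma odd_pow {t k : ℕ} (ht : 1 ≤ t) (h : 2 ^ t ∣ k) {x : ℕ} (hx : ¬ 2 ∣ x) :
    x ^ k ≡ 1 [MOD 2 ^ (t + 2)] := by
  obtain ⟨c, rfl⟩ := h
  rw [pow_mul]
  suffices h2 : x ^ 2 ^ t ≡ 1 [MOD 2 ^ (t + 2)] by simpa using h2.pow c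
  clear c
  induction t, ht using Nat.le_induction with
  | base =>
    have h8 : x % 8 = 1 ∨ x % 8 = 3 ∨ x % 8 = 5 ∨ x % 8 = 7 := by omega
    show x ^ 2 % 8 = 1 % 8
    rcases h8 with h | h | h | h <;> simp [Nat.pow_mod, h]
  | succ t ht ih =>
    have h1 : (2 ^ (t + 2) : ℤ) ∣ (x : ℤ) ^ 2 ^ t - 1 := by
      have := (Nat.modEq_iff_dvd.mp ih.symm)
      push_cast at this
      exact this
    obtain ⟨y, hy⟩ := h1
    have h3 : (x : ℤ) ^ 2 ^ (t + 1) - 1 = 2 ^ (t + 3) * (y + 2 ^ (t + 1) * y ^ 2) := by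
      have e : (x : ℤ) ^ 2 ^ (t + 1) = ((x : ℤ) ^ 2 ^ t) ^ 2 := by
        rw [← pow_mul, pow_succ]
      have e2 : (x : ℤ) ^ 2 ^ t = 1 + 2 ^ (t + 2) * y := by linarith
      rw [e, e2]
      ring
    apply Nat.ModEq.symm
    apply Nat.modEq_iff_dvd.mpr
    push_cast
    exact ⟨_, h3⟩

/-- If `k`-th powers of numbers prime to `p` are `1` modulo `p ^ s`, `s ≤ k` and `d < p ^ s`, then
all coordinates of a sum of `d` `k`-th powers divisible by `p ^ s` are divisible by `p`. -/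
lemma all_dvd {p s k d : ℕ} (hp : p.Prime) (hs : s ≤ k)
    (hu : ∀ x : ℕ, ¬ p ∣ x → x ^ k ≡ 1 [MOD p ^ s]) (hd : d < p ^ s) (x : Fin d → ℕ)
    (hx : p ^ s ∣ ∑ i, x i ^ k) (i : Fin d) : p ∣ x i := by
  classical
  have h1 : ∑ i, x i ^ k ≡ ∑ i, (if p ∣ x i then 0 else 1) [MOD p ^ s] := by
    have h2 : ∀ j, x j ^ k ≡ (if p ∣ x j then 0 else 1) [MOD p ^ s] := by
      intro j
      split_ifs with h
      · apply (Nat.modEq_zero_iff_dvd).mpr
        exact (pow_dvd_pow p hs).trans (pow_dvd_pow_of_dvd h k)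
      · exact hu _ h
    have : ∀ S : Finset (Fin d), ∑ i ∈ S, x i ^ k ≡ ∑ i ∈ S, (if p ∣ x i then 0 else 1)
        [MOD p ^ s] := by
      intro S
      induction S using Finset.induction_on with
      | empty => simp; rfl
      | insert a S ha ih =>
        rw [sum_insert ha, sum_insert ha]
        exact (h2 a).add ih
    exact this _
  have h2 : p ^ s ∣ ∑ i, (if p ∣ x i then 0 else 1) := by
    apply (Nat.modEq_zero_iff_dvd).mp
    exact h1.symm.trans ((Nat.modEq_zero_iff_dvd).mpr hx)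
  have h3 : ∑ i, (if p ∣ x i then 0 else 1) ≤ d := by
    calc ∑ i, (if p ∣ x i then 0 else 1) ≤ ∑ i : Fin d, 1 := by
          apply sum_le_sum
          intro j _
          split_ifs <;> omega
      _ = d := by simp
  have h4 : ∑ i, (if p ∣ x i then 0 else 1) = 0 :=
    Nat.eq_zero_of_dvd_of_lt h2 (lt_of_le_of_lt h3 hd)
  rw [sum_eq_zero_iff] at h4
  have h5 := h4 i (mem_univ i)
  by_contra h
  simp [h] at h5

lemma mem_sphere_nat {k d : ℕ} {n : ℕ} {m : Fin d → ℤ} :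
    m ∈ sphere k d (n : ℝ) ↔ ∑ i, (m i).natAbs ^ k = n ^ k := by
  have h : ∀ i, |(m i : ℝ)| ^ k = (((m i).natAbs ^ k : ℕ) : ℝ) := by
    intro i
    push_cast
    rw [Nat.cast_natAbs, Int.cast_abs]
  show ∑ i, |(m i : ℝ)| ^ k = (n : ℝ) ^ k ↔ _
  rw [sum_congr rfl (fun i _ => h i)]
  constructor
  · intro h'
    exact_mod_cast h'
  · intro h'
    exact_mod_cast h'

/-- all points of radius `p ^ j` are multiples of `p ^ j` -/
lemma descent {p s k d : ℕ} (hp : p.Prime) (hk : 0 < k) (hs : s ≤ k)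
    (hu : ∀ x : ℕ, ¬ p ∣ x → x ^ k ≡ 1 [MOD p ^ s]) (hd : d < p ^ s) (j : ℕ) :
    ∀ m ∈ sphere k d ((p ^ j : ℕ) : ℝ), ∃ m' ∈ sphere k d ((1 : ℕ) : ℝ), m = fun i => (p : ℤ) ^ j * m' i := by
  induction j with
  | zero =>
    intro m hm
    exact ⟨m, by simpa using hm, by simp⟩
  | succ j ih =>
    intro m hm
    rw [mem_sphere_nat] at hm
    have h1 : p ^ s ∣ ∑ i, (m i).natAbs ^ k := by
      rw [hm, ← pow_mul]
      apply pow_dvd_pow
      nlinarith
    have h2 := all_dvd hp hs hu hd (fun i => (m i).natAbs) h1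
    have h3 : ∀ i, ∃ y : ℤ, m i = p * y := by
      intro i
      have := Int.natCast_dvd.mpr (h2 i)
      exact this
    choose y hy using h3
    have h4 : y ∈ sphere k d ((p ^ j : ℕ) : ℝ) := by
      rw [mem_sphere_nat]
      have h5 : ∑ i, (m i).natAbs ^ k = p ^ k * ∑ i, (y i).natAbs ^ k := by
        rw [mul_sum]
        apply sum_congr rfl
        intro i _
        rw [hy i, Int.natAbs_mul, mul_pow, Int.natAbs_natCast]
      rw [hm, pow_succ, mul_pow, mul_comm] at h5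
      exact (Nat.eq_of_mul_eq_mul_left (pow_pos hp.pos k) h5).symm
    obtain ⟨m', hm', e⟩ := ih y h4
    refine ⟨m', hm', ?_⟩
    funext i
    rw [hy i, e]
    ring

/-- The order of magnitude fails below a local obstruction. -/
theorem fails_local {p s k d : ℕ} (hp : p.Prime) (hk : 3 ≤ k) (hs : s ≤ k) (hd1 : 1 ≤ d)
    (hu : ∀ x : ℕ, ¬ p ∣ x → x ^ k ≡ 1 [MOD p ^ s]) (h : Holds k d) : p ^ s ≤ d := by
  by_contra hcon
  push Not at hcon
  have hdk : k + 2 ≤ d := by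
    by_contra h'
    exact fails_low hk hd1 (by omega) h
  obtain ⟨c, C, r₀, hc, H⟩ := h
  have hk0 : 0 < k := by omega
  -- number of points is bounded by the number for the radius one
  have hfin : (sphere k d ((1 : ℕ) : ℝ)).Finite := sphere_finite hk0 (by norm_num)
  have hN : ∀ j : ℕ, ((sphere k d ((p ^ j : ℕ) : ℝ)).ncard : ℝ) ≤
      ((sphere k d ((1 : ℕ) : ℝ)).ncard : ℝ) := by
    intro j
    have h1 : sphere k d ((p ^ j : ℕ) : ℝ) ⊆
        (fun m' : Fin d → ℤ => fun i => (p : ℤ) ^ j * m' i) '' sphere k d ((1 : ℕ) : ℝ) := by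
      intro m hm
      obtain ⟨m', hm', e⟩ := descent hp hk0 hs hu hcon j m hm
      exact ⟨m', hm', e.symm⟩
    have h2 := (Set.ncard_le_ncard h1 (hfin.image _)).trans (Set.ncard_image_le hfin)
    exact_mod_cast h2
  have hne : ∀ j : ℕ, (sphere k d ((p ^ j : ℕ) : ℝ)).Nonempty := by
    intro j
    refine ⟨fun i => if i = ⟨0, hd1⟩ then (p : ℤ) ^ j else 0, ?_⟩
    rw [mem_sphere_nat]
    rw [sum_eq_single (⟨0, hd1⟩ : Fin d)]
    · simp [Int.natAbs_pow]
    · intro b _ hb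
      simp [hb, hk0.ne']
    · intro h'
      exact absurd (mem_univ _) h'
  -- the lower bound is violated
  set K : ℝ := ((sphere k d ((1 : ℕ) : ℝ)).ncard : ℝ) with hK
  obtain ⟨j, hj⟩ := pow_unbounded_of_one_lt (max r₀ (K / c)) (one_lt_two (α := ℝ))
  have hp2 : (2 : ℝ) ^ j ≤ ((p ^ j : ℕ) : ℝ) := by
    push_cast
    exact pow_le_pow_left₀ (by norm_num) (by exact_mod_cast hp.two_le) j
  have hr1 : (1 : ℝ) ≤ ((p ^ j : ℕ) : ℝ) := by
    exact_mod_cast Nat.one_le_pow _ _ hp.pos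
  have h1 := (H ((p ^ j : ℕ) : ℝ) (by linarith) ((le_max_left _ _).trans (hj.le.trans hp2)) (hne j)).1
  have h2 := h1.trans (hN j)
  have h3 : ((p ^ j : ℕ) : ℝ) ≤ ((p ^ j : ℕ) : ℝ) ^ ((d : ℝ) - k) := by
    have : (1 : ℝ) ≤ (d : ℝ) - k := by
      have : ((k + 2 : ℕ) : ℝ) ≤ d := by exact_mod_cast hdk
      push_cast at this
      linarith
    calc ((p ^ j : ℕ) : ℝ) = ((p ^ j : ℕ) : ℝ) ^ (1 : ℝ) := (Real.rpow_one _).symm
      _ ≤ _ := Real.rpow_le_rpow_of_exponent_le hr1 this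
  have h4 : c * ((p ^ j : ℕ) : ℝ) ≤ K := (mul_le_mul_of_nonneg_left h3 hc.le).trans h2
  have h5 : K / c < ((p ^ j : ℕ) : ℝ) := lt_of_le_of_lt (le_max_right _ _) (hj.trans_le hp2)
  rw [div_lt_iff₀ hc] at h5
  linarith

end Pool.Agent.Y371.KS
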